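import Mathlib

/-!
# Actions with commensurated sets
-/

set_option autoImplicit false

namespace Q182.Cc

/-- the places where two sets differ -/
def DF {Y : Type} (A B : Set Y) : Set Y := {y | ¬ (y ∈ A ↔ y ∈ B)}

section one

variable {Y : Type}

theorem mem_DF {A B : Set Y} {y : Y} : y ∈ DF A B ↔ ¬ (y ∈ A ↔ y ∈ B) := Iff.rfl

theorem DF_comm (A B : Set Y) : DF A B = DF B A := by
  ext y
  rw [mem_DF, mem_DF]
  tauto

theorem DF_tri (A B C : Set Y) : DF A C ⊆ DF A B ∪ DF B C := by
  intro y hy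
  rw [Set.mem_union, mem_DF, mem_DF]
  rw [mem_DF] at hy
  tauto

theorem DF_self (A : Set Y) : DF A A = ∅ := by
  ext y
  simp [mem_DF]

theorem DF_empty {A B : Set Y} (h : DF A B = ∅) : A = B := by
  ext y
  by_contra h1
  have : y ∈ DF A B := h1
  rw [h] at this
  exact this

/-- **the root bound**: if a power `σ ^ M` moves `A` by fewer than `M` elements then `A` is
commensurate to a `σ`-invariant set -/
theorem exists_inv (σ : Equiv.Perm Y) (A : Set Y) (hfin : {y | ¬ (y ∈ A ↔ σ y ∈ A)}.Finite)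
    (M : ℕ) (hM : ({y | ¬ (y ∈ A ↔ (σ ^ M) y ∈ A)} : Set Y).ncard < M)
    (hfM : {y | ¬ (y ∈ A ↔ (σ ^ M) y ∈ A)}.Finite) :
    ∃ A' : Set Y, (∀ y, y ∈ A' ↔ σ y ∈ A') ∧ (DF A A').Finite := by
  classical
  set D : Set Y := {y | ¬ (y ∈ A ↔ σ y ∈ A)} with hD
  -- integer powers
  have hstep : ∀ (z : Y) (n : ℤ), (σ ^ (n + 1)) z = σ ((σ ^ n) z) := by
    intro z n
    rw [add_comm, zpow_add, zpow_one, Equiv.Perm.mul_apply]
  -- constant on an interval without change points
  have hconst : ∀ (z : Y) (a : ℤ) (n : ℕ), (∀ j : ℤ, a ≤ j → j < a + n → (σ ^ j) z ∉ D) →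
      ((σ ^ a) z ∈ A ↔ (σ ^ (a + n)) z ∈ A) := by
    intro z a n
    induction n with
    | zero =>
      intro _
      rw [Nat.cast_zero, add_zero]
    | succ n ih =>
      intro h
      have h1 := ih (fun j h1 h2 => h j h1 (by push_cast; omega))
      have h2 := h (a + n) (by omega) (by push_cast; omega)
      rw [hD, Set.mem_ofPred_eq, not_not, ← hstep] at h2
      rw [h1, h2]
      push_cast
      rw [add_assoc]
  set A' : Set Y := {y | ∃ n₀ : ℕ, ∀ n : ℕ, n₀ ≤ n → (σ ^ (n : ℤ)) y ∈ A} with hA'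
  have hinv : ∀ y, y ∈ A' ↔ σ y ∈ A' := by
    intro y
    have hs : ∀ n : ℕ, (σ ^ (n : ℤ)) (σ y) = (σ ^ ((n + 1 : ℕ) : ℤ)) y := by
      intro n
      push_cast
      rw [zpow_add, zpow_one, Equiv.Perm.mul_apply]
    constructor
    · rintro ⟨n₀, h⟩
      refine ⟨n₀, fun n hn => ?_⟩
      rw [hs]
      exact h _ (by omega)
    · rintro ⟨n₀, h⟩
      refine ⟨n₀ + 1, fun n hn => ?_⟩
      obtain ⟨m, rfl⟩ : ∃ m, n = m + 1 := ⟨n - 1, by omega⟩
      rw [← hs]
      exact h m (by omega)
  have hinvz : ∀ (y : Y) (n : ℤ), y ∈ A' ↔ (σ ^ n) y ∈ A' := by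
    intro y n
    induction n using Int.induction_on with
    | zero => rw [zpow_zero, Equiv.Perm.one_apply]
    | succ n ih => rw [hstep, ← hinv, ih]
    | pred n ih =>
      rw [ih, hinv ((σ ^ (-(n : ℤ) - 1)) y), ← hstep]
      rw [sub_add_cancel]
  refine ⟨A', hinv, ?_⟩
  -- the change point
  have hchange : ∀ y ∈ DF A A', ∃ n : ℕ, (σ ^ (n : ℤ)) y ∈ D := by
    intro y hy
    by_contra hcon
    push Not at hcon
    have h1 : ∀ n : ℕ, (y ∈ A ↔ (σ ^ (n : ℤ)) y ∈ A) := by
      intro n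
      have h2 := hconst y 0 n (fun j h3 h4 => by
        obtain ⟨m, rfl⟩ := Int.eq_ofNat_of_zero_le h3
        exact hcon m)
      rw [zpow_zero, Equiv.Perm.one_apply, zero_add] at h2
      exact h2
    apply hy
    constructor
    · intro h2
      exact ⟨0, fun n _ => (h1 n).1 h2⟩
    · rintro ⟨n₀, h2⟩
      exact (h1 n₀).2 (h2 n₀ le_rfl)
  -- the differences in the orbit of a change point
  have horb : ∀ z ∈ D, {n : ℤ | (σ ^ n) z ∈ DF A A'}.Finite ∨ ∃ p : ℕ, 0 < p ∧ (σ ^ (p : ℤ)) z = z := by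
    intro z _
    by_cases hper : ∃ p : ℕ, 0 < p ∧ (σ ^ (p : ℤ)) z = z
    · exact Or.inr hper
    left
    push Not at hper
    have hinj : Function.Injective (fun n : ℤ => (σ ^ n) z) := by
      intro a b hab
      have hab' : (σ ^ a) z = (σ ^ b) z := hab
      have key : ∀ a b : ℤ, a < b → (σ ^ a) z ≠ (σ ^ b) z := by
        intro a b hlt heq
        obtain ⟨p, hp⟩ := Int.eq_ofNat_of_zero_le (show 0 ≤ b - a by omega)
        apply hper p (by omega)
        rw [← hp]
        have h1 : (σ ^ (b - a)) z = (σ ^ (-a)) ((σ ^ b) z) := by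
          rw [← Equiv.Perm.mul_apply, ← zpow_add]
          congr 2
          omega
        rw [h1, ← heq, ← Equiv.Perm.mul_apply, ← zpow_add, neg_add_cancel, zpow_zero,
          Equiv.Perm.one_apply]
      rcases lt_trichotomy a b with h | h | h
      · exact absurd hab' (key a b h)
      · exact h
      · exact absurd hab'.symm (key b a h)
    -- no change points far away
    have hfinD : {n : ℤ | (σ ^ n) z ∈ D}.Finite := hfin.preimage (hinj.injOn)
    obtain ⟨B, hB⟩ : ∃ B : ℕ, ∀ n : ℤ, (σ ^ n) z ∈ D → n.natAbs < B := by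
      obtain ⟨B, hB⟩ := (hfinD.image Int.natAbs).bddAbove
      refine ⟨B + 1, fun n hn => ?_⟩
      have := hB ⟨n, hn, rfl⟩
      omega
    have hpos : ∀ n : ℤ, (B : ℤ) ≤ n → ((σ ^ (B : ℤ)) z ∈ A ↔ (σ ^ n) z ∈ A) := by
      intro n hn
      obtain ⟨m, hm⟩ := Int.eq_ofNat_of_zero_le (show 0 ≤ n - B by omega)
      have h1 := hconst z B m (fun j h1 h2 h3 => by
        have := hB j h3
        omega)
      rw [h1]
      have h2 : (B : ℤ) + m = n := by omega
      rw [h2]
    have hneg : ∀ n : ℤ, n ≤ -(B : ℤ) → ((σ ^ n) z ∈ A ↔ (σ ^ (-(B : ℤ))) z ∈ A) := by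
      intro n hn
      obtain ⟨m, hm⟩ := Int.eq_ofNat_of_zero_le (show 0 ≤ -(B : ℤ) - n by omega)
      have h1 := hconst z n m (fun j h1 h2 h3 => by
        have := hB j h3
        omega)
      rw [h1]
      have h2 : n + (m : ℤ) = -(B : ℤ) := by omega
      rw [h2]
    -- the ends agree
    have hends : (σ ^ (B : ℤ)) z ∈ A ↔ (σ ^ (-(B : ℤ))) z ∈ A := by
      by_contra hne
      have hr : ∀ r : Fin M, ∃ j : ℤ, ¬ ((σ ^ ((r : ℤ) + j * M)) z ∈ A ↔
          (σ ^ ((r : ℤ) + (j + 1) * M)) z ∈ A) := by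
        intro r
        by_contra hcon
        push Not at hcon
        have hc : ∀ j : ℤ, ((σ ^ ((r : ℤ) + 0 * M)) z ∈ A ↔ (σ ^ ((r : ℤ) + j * M)) z ∈ A) := by
          intro j
          induction j using Int.induction_on with
          | zero => exact Iff.rfl
          | succ n ih => exact ih.trans (hcon n)
          | pred n ih =>
            have h1 := hcon (-(n : ℤ) - 1)
            rw [sub_add_cancel] at h1
            exact ih.trans h1.symm
        have hMpos : 0 < M := lt_of_le_of_lt (Nat.zero_le _) r.2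
        have hMz : (1 : ℤ) ≤ M := by exact_mod_cast hMpos
        have hrz : (0 : ℤ) ≤ (r : ℤ) := by positivity
        have hrM : (r : ℤ) < M := by exact_mod_cast r.2
        have h1 := (hc (B : ℤ)).symm.trans (hc (-(B : ℤ) - 1))
        have h2 := hpos ((r : ℤ) + (B : ℤ) * M) (by nlinarith)
        have h3 := hneg ((r : ℤ) + (-(B : ℤ) - 1) * M) (by nlinarith)
        apply hne
        rw [h2, h1, h3]
      choose j hj using hr
      let f : Fin M → Y := fun r => (σ ^ ((r : ℤ) + j r * M)) z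
      have hfinj : Function.Injective f := by
        intro r s hrs
        have h1 : (r : ℤ) + j r * M = (s : ℤ) + j s * M := hinj hrs
        have h2 : ((r : ℤ) + j r * M) % M = ((s : ℤ) + j s * M) % M := by rw [h1]
        rw [Int.add_mul_emod_self_right, Int.add_mul_emod_self_right,
          Int.emod_eq_of_lt (by positivity) (by exact_mod_cast r.2),
          Int.emod_eq_of_lt (by positivity) (by exact_mod_cast s.2)] at h2
        exact Fin.ext (by exact_mod_cast h2)
      have hfmem : ∀ r, f r ∈ {y | ¬ (y ∈ A ↔ (σ ^ M) y ∈ A)} := by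
        intro r
        rw [Set.mem_ofPred_eq]
        have h1 : (σ ^ M) (f r) = (σ ^ ((r : ℤ) + (j r + 1) * M)) z := by
          change (σ ^ M) ((σ ^ ((r : ℤ) + j r * M)) z) = _
          rw [← zpow_natCast, ← Equiv.Perm.mul_apply, ← zpow_add]
          congr 2
          ring
        rw [h1]
        exact hj r
      have h1 : M ≤ ({y | ¬ (y ∈ A ↔ (σ ^ M) y ∈ A)} : Set Y).ncard := by
        have h2 := Set.ncard_le_ncard (s := Set.range f)
          (t := {y | ¬ (y ∈ A ↔ (σ ^ M) y ∈ A)}) (by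
            rintro _ ⟨r, rfl⟩
            exact hfmem r) hfM
        rw [Set.ncard_eq_toFinset_card' (Set.range f), Set.toFinset_range,
          Finset.card_image_of_injective _ hfinj, Finset.card_univ, Fintype.card_fin] at h2
        exact h2
      omega
    -- the differences are near the origin
    refine (Set.finite_Icc (-(B : ℤ)) B).subset ?_
    intro n hn
    rw [Set.mem_ofPred_eq, mem_DF] at hn
    rw [Set.mem_Icc]
    have hA'n : (σ ^ n) z ∈ A' ↔ (σ ^ (B : ℤ)) z ∈ A := by
      rw [← hinvz]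
      constructor
      · rintro ⟨n₀, h⟩
        rw [hpos ((max n₀ B : ℕ) : ℤ) (by exact_mod_cast le_max_right _ _)]
        exact h _ (le_max_left _ _)
      · intro h
        refine ⟨B, fun n hn => ?_⟩
        rw [← hpos n (by exact_mod_cast hn)]
        exact h
    by_contra hout
    apply hn
    rw [hA'n]
    rcases le_or_gt (B : ℤ) n with h1 | h1
    · exact (hpos n h1).symm
    · rw [hneg n (by omega)]
      exact hends.symm
  have hcover : DF A A' ⊆ ⋃ z ∈ D, {y | y ∈ DF A A' ∧ ∃ n : ℤ, (σ ^ n) z = y} := by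
    intro y hy
    obtain ⟨n, hn⟩ := hchange y hy
    rw [Set.mem_iUnion₂]
    refine ⟨_, hn, hy, -(n : ℤ), ?_⟩
    rw [← Equiv.Perm.mul_apply, ← zpow_add, neg_add_cancel, zpow_zero, Equiv.Perm.one_apply]
  refine (hfin.biUnion fun z hz => ?_).subset hcover
  rcases horb z hz with h | ⟨p, hp, hpz⟩
  · refine (h.image (fun n : ℤ => (σ ^ n) z)).subset ?_
    rintro y ⟨hy, n, rfl⟩
    exact ⟨n, hy, rfl⟩
  · refine ((Set.finite_Ico (0 : ℤ) p).image (fun n : ℤ => (σ ^ n) z)).subset ?_
    rintro y ⟨_, n, rfl⟩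
    have hpz' : (0 : ℤ) < p := by exact_mod_cast hp
    refine ⟨n % p, ⟨Int.emod_nonneg _ hpz'.ne', Int.emod_lt_of_pos _ hpz'⟩, ?_⟩
    have h1 : n = n % p + p * (n / p) := by
      rw [add_comm]
      exact (Int.mul_ediv_add_emod n p).symm
    have h2 : ∀ m : ℤ, (σ ^ ((p : ℤ) * m)) z = z := by
      intro m
      rw [zpow_mul]
      induction m using Int.induction_on with
      | zero => rw [zpow_zero, Equiv.Perm.one_apply]
      | succ m ih => rw [zpow_add, Equiv.Perm.mul_apply, zpow_one, hpz, ih]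
      | pred m ih =>
        rw [zpow_sub, Equiv.Perm.mul_apply, zpow_one]
        have h3 : (σ ^ (p : ℤ))⁻¹ z = z := by
          rw [Equiv.Perm.inv_eq_iff_eq]
          exact hpz.symm
        rw [h3, ih]
    change (σ ^ (n % p)) z = (σ ^ n) z
    rw [h1, zpow_add, Equiv.Perm.mul_apply, h2]
    rw [← h1]

end one

end Q182.Cc
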