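import Pool.Agent.Q182.Cc.Sys
import Pool.Agent.Q182.BtFin

/-!
# Chains of roots in groups acting on median graphs
-/

set_option autoImplicit false

namespace Q182.Cc

open Q182.Bt
open Pool.Agent.TH107.LB

universe u w

variable {R : Type u} [CommRing R]

/-- a chain with smooth powers in a subgroup -/
theorem of_smooth [IsDomain R] {G : Type} [Group G] (H : Subgroup G) (hH : P R H) {m : ℕ}
    (hm : 0 < m) {b : ℕ → G} (hb : Chain R m b) {K L : ℕ} (hK : IsUnit (K : R)) (hL : 0 < L)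
    (hp : ∀ i, ∃ d : ℕ, b i ^ (L * K ^ d) ∈ H) : ∃ s : ℕ, 0 < s ∧ b 0 ^ s = 1 := by
  obtain ⟨M, hM1, hM2⟩ := hb
  choose d hd using hp
  have hKpos : 0 < K := by
    rcases Nat.eq_zero_or_pos K with rfl | h
    · rw [Nat.cast_zero] at hK
      exact absurd hK not_isUnit_zero
    · exact h
  have hc : ∀ i, (b (i + 1) ^ L) ^ M i = b i ^ L := by
    intro i
    rw [← pow_mul, mul_comm, pow_mul, hM1]
  have hcd : ∀ i, (b i ^ L) ^ K ^ d i ∈ H := by
    intro i
    rw [← pow_mul]
    exact hd i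
  let E : ℕ → ℕ := fun i => Nat.rec (K ^ d 0) (fun i e => Nat.gcd (K ^ d (i + 1)) (M i * e)) i
  have hE0 : E 0 = K ^ d 0 := rfl
  have hE : ∀ i, E (i + 1) = Nat.gcd (K ^ d (i + 1)) (M i * E i) := fun i => rfl
  have hmem : ∀ i, (b i ^ L) ^ E i ∈ H := by
    intro i
    induction i with
    | zero =>
      rw [hE0]
      exact hcd 0
    | succ i ih =>
      rw [hE]
      have h1 : (b (i + 1) ^ L) ^ (M i * E i) ∈ H := by
        rw [pow_mul, hc]
        exact ih
      have h2 : ((b (i + 1) ^ L) ^ ((Nat.gcd (K ^ d (i + 1)) (M i * E i) : ℕ) : ℤ)) ∈ H := by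
        rw [Nat.gcd_eq_gcd_ab, zpow_add, zpow_mul, zpow_mul, zpow_natCast, zpow_natCast]
        exact Subgroup.mul_mem _ (Subgroup.zpow_mem _ (hcd (i + 1)) _)
          (Subgroup.zpow_mem _ h1 _)
      rwa [zpow_natCast] at h2
  have hEdvd : ∀ i, E (i + 1) ∣ M i * E i := fun i => Nat.gcd_dvd_right _ _
  choose N' hN' using hEdvd
  have hch : Chain R (m * K) (fun i => (⟨(b i ^ L) ^ E i, hmem i⟩ : H)) := by
    refine ⟨N', fun i => ?_, fun p hp hr i hi => ?_⟩
    · apply Subtype.ext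
      show ((b (i + 1) ^ L) ^ E (i + 1)) ^ N' i = (b i ^ L) ^ E i
      rw [← pow_mul, ← hN', pow_mul, hc]
    · have hpK : ¬ p ∣ K := by
        rcases hr with h4 | ⟨_, h4⟩
        · rintro ⟨c, hc⟩
          apply h4
          rw [hc, Nat.cast_mul] at hK
          exact isUnit_of_mul_isUnit_left hK
        · exact fun h5 => h4 (Dvd.dvd.mul_left h5 m)
      have hr' : Rel R m p := by
        rcases hr with h4 | ⟨h4, h5⟩
        · exact Or.inl h4
        · exact Or.inr ⟨h4, fun h6 => h5 (Dvd.dvd.mul_right h6 K)⟩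
      have h6 : p ∣ M i * E i := Dvd.dvd.mul_right (hM2 p hp hr' i hi) _
      rw [hN'] at h6
      rcases (Nat.Prime.dvd_mul hp).1 h6 with h7 | h7
      · exfalso
        apply hpK
        have h8 : E (i + 1) ∣ K ^ d (i + 1) := Nat.gcd_dvd_left _ _
        exact hp.dvd_of_dvd_pow (h7.trans h8)
      · exact h7
  obtain ⟨s, hs, h3⟩ := hH (m * K) (Nat.mul_pos hm hKpos) _ hch
  refine ⟨L * E 0 * s, Nat.mul_pos (Nat.mul_pos hL ?_) hs, ?_⟩
  · rw [hE0]
    exact Nat.pow_pos hKpos
  · have h4 := congrArg Subtype.val h3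
    have h5 : ((b 0 ^ L) ^ E 0) ^ s = 1 := h4
    rw [pow_mul, pow_mul]
    exact h5

variable {G : Type} [Group G] {V Y : Type} [MulAction G V] [MulAction G Y] {A : V → Set Y}

/-- the condition on the powers which fix a point -/
def TameAt (R : Type u) [CommRing R] (G : Type) [Group G] {V : Type} [MulAction G V] (v : V) :
    Prop :=
  ∃ K L : ℕ, IsUnit (K : R) ∧ 0 < L ∧ ∀ g : G, (∀ s : ℕ, 0 < s → g ^ s ≠ 1) →
    (∃ s : ℕ, 0 < s ∧ g ^ s • v = v) → ∃ d : ℕ, g ^ (L * K ^ d) • v = v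

/-- **the theorem** for systems of sets -/
theorem P.sys [IsDomain R] [Nonempty V] (hA : Sys G A)
    (hst : ∀ v : V, P R (MulAction.stabilizer G v)) (ht : ∀ v : V, TameAt R G v) : P R G := by
  intro m hm b hb
  by_contra hinf
  push Not at hinf
  have hinf' : ∀ i (s : ℕ), 0 < s → b i ^ s ≠ 1 := by
    intro i
    induction i with
    | zero => exact hinf
    | succ i ih =>
      intro s hs h1
      obtain ⟨N, h2, _⟩ := hb
      apply ih s hs
      rw [← h2 i, ← pow_mul, mul_comm, pow_mul, h1, one_pow]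
  obtain ⟨v⟩ := ‹Nonempty V›
  obtain ⟨k, c, ⟨hc, hk⟩ | h1⟩ := Chain.high hm hb 0 (dsp A (b 0) v + 1)
  swap
  · exact hinf 1 one_pos (by rw [h1, one_pow])
  obtain ⟨u, n, hn, hu⟩ := hA.power_fix hk (v := v) (by omega)
  obtain ⟨K, L, hK, hL, hKL⟩ := ht u
  obtain ⟨s, hs, h3⟩ := of_smooth (MulAction.stabilizer G u) (hst u) hm hb hK hL (by
    intro i
    refine hKL (b i) (hinf' i) ?_
    obtain ⟨N, h2, _⟩ := hb
    obtain ⟨M, hM⟩ := exists_pow h2 i
    have hMpos : 0 < M := by
      rcases Nat.eq_zero_or_pos M with rfl | h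
      · exfalso
        apply hinf 1 one_pos
        rw [← hM, pow_zero, one_pow]
      · exact h
    refine ⟨M * n, Nat.mul_pos hMpos hn, ?_⟩
    rw [pow_mul, hM]
    exact hu)
  exact hinf s hs h3

/-! ### bounded indices -/

theorem dvd_pow_self_of_primes {n K : ℕ} (hn : n ≠ 0) (hK : K ≠ 0)
    (h : ∀ p : ℕ, p.Prime → p ∣ n → p ∣ K) : n ∣ K ^ n := by
  rw [← Nat.factorization_prime_le_iff_dvd hn (pow_ne_zero n hK)]
  intro p hp
  rw [Nat.factorization_pow, Finsupp.smul_apply, smul_eq_mul]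
  by_cases hpn : p ∣ n
  · have h1 : 0 < K.factorization p := hp.factorization_pos_of_dvd hK (h p hp hpn)
    have h2 : n.factorization p < n := Nat.factorization_lt p hn
    calc n.factorization p ≤ n * 1 := by omega
      _ ≤ n * K.factorization p := Nat.mul_le_mul_left _ h1
  · rw [Nat.factorization_eq_zero_of_not_dvd hpn]
    exact Nat.zero_le _

theorem walk_smooth {X : SimpleGraph V} {B : ℕ}
    (hidx : ∀ v w : V, X.Adj v w → (MulAction.stabilizer G w).relIndex
      (MulAction.stabilizer G v) ≠ 0 ∧ (MulAction.stabilizer G w).relIndex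
      (MulAction.stabilizer G v) ≤ B) {a b : V} (p : X.Walk a b) (h : G) :
    ∀ e : ℕ, 0 < e → (∀ q : ℕ, q.Prime → q ∣ e → q ≤ B) → h ^ e • a = a →
      ∃ e' : ℕ, 0 < e' ∧ (∀ q : ℕ, q.Prime → q ∣ e' → q ≤ B) ∧ h ^ e' • b = b := by
  induction p with
  | nil => exact fun e h1 h2 h3 => ⟨e, h1, h2, h3⟩
  | @cons a b c hab _ ih =>
    intro e h1 h2 h3
    obtain ⟨h4, h5⟩ := hidx a b hab
    have h6 : h ^ e ∈ MulAction.stabilizer G a := h3
    obtain ⟨f, hf1, hf2, hf3⟩ := Subgroup.exists_pow_mem_of_relIndex_ne_zero h4 h6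
    have h7 : (h ^ e) ^ f ∈ MulAction.stabilizer G b := hf3.1
    refine ih (e * f) (Nat.mul_pos h1 hf1) ?_ ?_
    · intro q hq hqd
      rcases (Nat.Prime.dvd_mul hq).1 hqd with h8 | h8
      · exact h2 q hq h8
      · exact (Nat.le_of_dvd hf1 h8).trans (hf2.trans h5)
    · rw [pow_mul]
      exact h7

/-- the sizes of the finite orbits of the powers are products of small primes -/
theorem Sys.smooth_period (hA : Sys G A) {X : SimpleGraph V} (hX : X.Connected) {B : ℕ}
    (hidx : ∀ v w : V, X.Adj v w → (MulAction.stabilizer G w).relIndex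
      (MulAction.stabilizer G v) ≠ 0 ∧ (MulAction.stabilizer G w).relIndex
      (MulAction.stabilizer G v) ≤ B) {g : G} {v : V} (hg : ∃ s : ℕ, 0 < s ∧ g ^ s • v = v) :
    ∃ d : ℕ, g ^ ((2 * B.factorial) ^ d) • v = v := by
  set n := Function.minimalPeriod (g • ·) v with hn
  have hper : ∀ k : ℕ, g ^ k • v = v ↔ n ∣ k := fun k =>
    MulAction.pow_smul_eq_iff_minimalPeriod_dvd
  have hn0 : n ≠ 0 := by
    obtain ⟨s, hs, h1⟩ := hg
    rw [hper] at h1
    rintro h0
    rw [h0, zero_dvd_iff] at h1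
    omega
  refine ⟨n, ?_⟩
  rw [hper]
  refine dvd_pow_self_of_primes hn0 (Nat.mul_pos two_pos (Nat.factorial_pos B)).ne' ?_
  intro p hp hpn
  by_contra hpK
  have hp2 : p ≠ 2 := fun h => hpK (by rw [h]; exact dvd_mul_right 2 _)
  have hpB : B < p := by
    by_contra h
    push Not at h
    exact hpK ((Nat.dvd_factorial hp.pos h).trans (dvd_mul_left _ 2))
  obtain ⟨k, hk⟩ := (hp.eq_two_or_odd'.resolve_left hp2)
  obtain ⟨c, hc⟩ := hpn
  have hc0 : 0 < c := by
    rcases Nat.eq_zero_or_pos c with rfl | h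
    · rw [mul_zero] at hc
      exact absurd hc hn0
    · exact h
  obtain ⟨u, hu⟩ := hA.odd_fix (h := g ^ c) (v := v) (k := k) (by
    rw [← pow_mul, ← hk, hper, hc, mul_comm])
  obtain ⟨w⟩ := hX.preconnected u v
  obtain ⟨e, he0, he1, he2⟩ := walk_smooth hidx w (g ^ c) 1 one_pos
    (fun q hq h1 => absurd (Nat.le_of_dvd one_pos h1) (by have := hq.two_le; omega))
    (by rw [pow_one]; exact hu)
  rw [← pow_mul, hper, hc, mul_comm p c] at he2
  have h1 : p ∣ e := Nat.dvd_of_mul_dvd_mul_left hc0 he2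
  have := he1 p hp h1
  omega

/-- the property passes from one vertex stabilizer to the commensurable ones -/
theorem P.commens' {X : SimpleGraph V} (hX : X.Connected)
    (hidx : ∀ v w : V, X.Adj v w → (MulAction.stabilizer G w).relIndex
      (MulAction.stabilizer G v) ≠ 0) (v₀ : V) (h : P R (MulAction.stabilizer G v₀)) (v : V) :
    P R (MulAction.stabilizer G v) := by
  obtain ⟨p⟩ := hX.preconnected v₀ v
  induction p with
  | nil => exact h
  | @cons a b c hab q ih =>
    apply ih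
    have h1 : (((MulAction.stabilizer G a).subgroupOf (MulAction.stabilizer G b))).FiniteIndex :=
      ⟨hidx b a hab.symm⟩
    apply P.fi _ h1
    let j : ((MulAction.stabilizer G a).subgroupOf (MulAction.stabilizer G b)) →*
        MulAction.stabilizer G a :=
      { toFun := fun x => ⟨x.1.1, x.2⟩
        map_one' := rfl
        map_mul' := fun x y => rfl }
    apply P.sub j
    · intro x y hxy
      have h3 : ((j x : MulAction.stabilizer G a) : G) = ((j y : MulAction.stabilizer G a) : G) :=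
        congrArg Subtype.val hxy
      exact Subtype.ext (Subtype.ext h3)
    · exact h

/-- bounded indices -/
theorem P.idx [IsDomain R] (hA : Sys G A) {X : SimpleGraph V} (hX : X.Connected) {B : ℕ}
    (hB : IsUnit (((2 * B.factorial : ℕ)) : R))
    (hidx : ∀ v w : V, X.Adj v w → (MulAction.stabilizer G w).relIndex
      (MulAction.stabilizer G v) ≠ 0 ∧ (MulAction.stabilizer G w).relIndex
      (MulAction.stabilizer G v) ≤ B) (v₀ : V) (h0 : P R (MulAction.stabilizer G v₀)) : P R G := by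
  have : Nonempty V := ⟨v₀⟩
  refine P.sys hA (fun v => P.commens' hX (fun v w h => (hidx v w h).1) v₀ h0 v) fun v => ?_
  refine ⟨2 * B.factorial, 1, hB, one_pos, fun g _ hg => ?_⟩
  obtain ⟨d, hd⟩ := hA.smooth_period hX hidx hg
  exact ⟨d, by rw [one_mul]; exact hd⟩

/-- torsion stabilizers -/
theorem P.torsion [IsDomain R] [Nonempty V] (hA : Sys G A)
    (hst : ∀ (v : V) (g : G), g • v = v → ∃ s : ℕ, 0 < s ∧ g ^ s = 1) : P R G := by
  refine P.sys hA (fun v => ?_) fun v => ?_
  · intro m _ b _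
    obtain ⟨s, hs, h1⟩ := hst v (b 0).1 (b 0).2
    exact ⟨s, hs, Subtype.ext h1⟩
  · refine ⟨1, 1, by rw [Nat.cast_one]; exact isUnit_one, one_pos, fun g hg ⟨s, hs, h1⟩ => ?_⟩
    obtain ⟨t, ht, h2⟩ := hst v (g ^ s) h1
    rw [← pow_mul] at h2
    exact absurd h2 (hg _ (Nat.mul_pos hs ht))

/-! ### commensurated sets -/

open scoped Pointwise in
/-- the sets which are commensurate to a commensurated set -/
def Cm {Y : Type} (A₀ : Set Y) : Type := {A : Set Y // (DF A₀ A).Finite}

end Q182.Cc
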