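import Mathlib

/-!
# Halfspaces of median graphs
-/

set_option autoImplicit false

namespace Q182.Cc

open SimpleGraph

variable {V : Type} {X : SimpleGraph V}

/-- `m` is a median of `x`, `y`, `z` -/
def IsMed (X : SimpleGraph V) (x y z m : V) : Prop :=
  X.dist x m + X.dist m y = X.dist x y ∧ X.dist y m + X.dist m z = X.dist y z ∧
    X.dist x m + X.dist m z = X.dist x z

/-- a median graph: a connected graph in which any three vertices have a unique median -/
def Median (X : SimpleGraph V) : Prop :=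
  X.Connected ∧ ∀ x y z : V, ∃! m : V, IsMed X x y z m

/-- the halfspace of `x` with respect to the edge `x y` -/
def Wd (X : SimpleGraph V) (x y : V) : Set V := {u | X.dist u x < X.dist u y}

theorem mem_Wd {x y u : V} : u ∈ Wd X x y ↔ X.dist u x < X.dist u y := Iff.rfl

/-- a neighbour on the way -/
theorem exists_step (hc : X.Connected) {x y : V} {k : ℕ} (h : X.dist x y = k + 1) :
    ∃ z, X.Adj x z ∧ X.dist z y = k := by
  obtain ⟨p, hp⟩ := hc.exists_walk_length_eq_dist x y
  cases p with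
  | nil =>
    rw [dist_self] at h
    omega
  | @cons _ z _ hxz q =>
    refine ⟨z, hxz, ?_⟩
    have h1 : X.dist z y ≤ q.length := dist_le q
    have h2 : X.dist x y ≤ X.dist x z + X.dist z y := hc.dist_triangle
    have h3 : X.dist x z = 1 := dist_eq_one_iff_adj.2 hxz
    rw [Walk.length_cons] at hp
    omega

theorem Median.ne_dist (hX : Median X) (u : V) {x y : V} (h : X.Adj x y) :
    X.dist u x = X.dist u y + 1 ∨ X.dist u y = X.dist u x + 1 := by
  obtain ⟨m, ⟨h1, h2, h3⟩, _⟩ := hX.2 u x y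
  have h4 : X.dist x y = 1 := dist_eq_one_iff_adj.2 h
  have h5 := X.dist_comm (u := x) (v := m)
  have h6 := X.dist_comm (u := u) (v := m)
  rcases Nat.eq_zero_or_pos (X.dist x m) with h0 | h0
  · have : x = m := hX.1.dist_eq_zero_iff.1 h0
    subst this
    right
    omega
  · have h7 : X.dist m y = 0 := by omega
    have : m = y := hX.1.dist_eq_zero_iff.1 h7
    subst this
    left
    omega

theorem Median.dist_two (hX : Median X) {a b c : V} (hb : X.Adj a b) (hc : X.Adj a c)
    (hbc : b ≠ c) : X.dist b c = 2 := by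
  have h1 : X.dist a b = 1 := dist_eq_one_iff_adj.2 hb
  have h2 : X.dist a c = 1 := dist_eq_one_iff_adj.2 hc
  have h3 : X.dist b c ≤ X.dist b a + X.dist a c := hX.1.dist_triangle
  have h4 : X.dist b a = 1 := by rw [dist_comm]; exact h1
  have h5 : X.dist b c ≠ 0 := fun h => hbc (hX.1.dist_eq_zero_iff.1 h)
  have h6 : X.dist b c ≠ 1 := by
    intro h
    have h7 := hX.ne_dist a (dist_eq_one_iff_adj.1 h)
    omega
  omega

/-- opposite edges of a square define the same halfspace -/
theorem Median.sq_sub (hX : Median X) {x z z' x' : V} (h1 : X.Adj x z) (h2 : X.Adj z z')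
    (h3 : X.Adj z' x') (h4 : X.Adj x' x) (hxz' : x ≠ z') (hzx' : z ≠ x') :
    Wd X x z ⊆ Wd X x' z' := by
  intro u hu
  by_contra hu'
  rw [mem_Wd] at hu hu'
  have e1 := hX.ne_dist u h1
  have e2 := hX.ne_dist u h2
  have e3 := hX.ne_dist u h3
  have e4 := hX.ne_dist u h4
  -- the distances
  have f1 : X.dist u z = X.dist u x + 1 := by omega
  have f2 : X.dist u z' = X.dist u x := by omega
  have f3 : X.dist u x' = X.dist u x + 1 := by omega
  have g1 : X.dist x z' = 2 := hX.dist_two h1.symm h2 hxz'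
  obtain ⟨m, ⟨m1, m2, m3⟩, _⟩ := hX.2 x z' u
  have c1 : X.dist x u = X.dist u x := X.dist_comm
  have c2 : X.dist z' u = X.dist u z' := X.dist_comm
  have c3 : X.dist z' m = X.dist m z' := X.dist_comm
  have k1 : X.dist x m = 1 := by omega
  have k2 : X.dist m z' = 1 := by omega
  have k3 : X.dist m u + 1 = X.dist u x := by omega
  have a1 : X.Adj x m := dist_eq_one_iff_adj.1 k1
  have a2 : X.Adj m z' := dist_eq_one_iff_adj.1 k2
  have n1 : z ≠ m := by
    rintro rfl
    rw [X.dist_comm (u := z) (v := u)] at k3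
    omega
  have n2 : x' ≠ m := by
    rintro rfl
    rw [X.dist_comm (u := x') (v := u)] at k3
    omega
  -- two medians
  have d1 : X.dist z x' = 2 := hX.dist_two h1 h4.symm hzx'
  have d2 : X.dist x' m = 2 := hX.dist_two h4.symm a1 n2
  have d3 : X.dist z m = 2 := hX.dist_two h1 a1 n1
  have o1 : X.dist z x = 1 := dist_eq_one_iff_adj.2 h1.symm
  have o2 : X.dist x x' = 1 := dist_eq_one_iff_adj.2 h4.symm
  have o3 : X.dist x' x = 1 := dist_eq_one_iff_adj.2 h4
  have o4 : X.dist z z' = 1 := dist_eq_one_iff_adj.2 h2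
  have o5 : X.dist z' x' = 1 := dist_eq_one_iff_adj.2 h3
  have o6 : X.dist x' z' = 1 := dist_eq_one_iff_adj.2 h3.symm
  have o7 : X.dist z' m = 1 := by rw [X.dist_comm]; exact k2
  obtain ⟨w, _, hw⟩ := hX.2 z x' m
  have w1 := hw x ⟨by omega, by omega, by omega⟩
  have w2 := hw z' ⟨by omega, by omega, by omega⟩
  exact hxz' (w1.trans w2.symm)

theorem Median.sq_eq (hX : Median X) {x z z' x' : V} (h1 : X.Adj x z) (h2 : X.Adj z z')
    (h3 : X.Adj z' x') (h4 : X.Adj x' x) (hxz' : x ≠ z') (hzx' : z ≠ x') :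
    Wd X x z = Wd X x' z' :=
  Set.Subset.antisymm (hX.sq_sub h1 h2 h3 h4 hxz' hzx')
    (hX.sq_sub h3.symm h2.symm h1.symm h4.symm hzx'.symm hxz'.symm)

/-- edges which cross the same wall define the same halfspace -/
theorem Median.theta (hX : Median X) {a b : V} (hab : X.Adj a b) : ∀ (k : ℕ) (x z : V),
    X.dist x a = k → X.Adj x z → x ∈ Wd X a b → z ∈ Wd X b a → Wd X a b = Wd X x z := by
  intro k
  induction k with
  | zero =>
    intro x z hk hxz hx hz
    obtain rfl : x = a := hX.1.dist_eq_zero_iff.1 hk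
    rw [mem_Wd] at hz
    have h1 : X.dist z x = 1 := dist_eq_one_iff_adj.2 hxz.symm
    obtain rfl : z = b := hX.1.dist_eq_zero_iff.1 (by omega)
    rfl
  | succ k ih =>
    intro x z hk hxz hx hz
    rw [mem_Wd] at hx hz
    have e1 := hX.ne_dist x hab
    have e2 := hX.ne_dist z hab
    have e3 := hX.ne_dist a hxz
    have e4 := hX.ne_dist b hxz
    rw [X.dist_comm (u := a) (v := x), X.dist_comm (u := a) (v := z)] at e3
    rw [X.dist_comm (u := b) (v := x), X.dist_comm (u := b) (v := z)] at e4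
    have f1 : X.dist x b = k + 2 := by omega
    have f2 : X.dist z b = k + 1 := by omega
    have f3 : X.dist z a = k + 2 := by omega
    obtain ⟨x', hxx', hx'a⟩ := exists_step hX.1 hk
    have o1 : X.dist a b = 1 := dist_eq_one_iff_adj.2 hab
    have g1 : X.dist x' b ≤ X.dist x' a + X.dist a b := hX.1.dist_triangle
    have e5 := hX.ne_dist b hxx'
    rw [X.dist_comm (u := b) (v := x), X.dist_comm (u := b) (v := x')] at e5
    have f4 : X.dist x' b = k + 1 := by omega
    have hzx' : z ≠ x' := by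
      rintro rfl
      omega
    have g2 : X.dist x' z = 2 := hX.dist_two hxx' hxz hzx'.symm
    obtain ⟨m, ⟨m1, m2, m3⟩, _⟩ := hX.2 x' z b
    have c1 : X.dist z m = X.dist m z := X.dist_comm
    have k1 : X.dist x' m = 1 := by omega
    have k2 : X.dist m z = 1 := by omega
    have k3 : X.dist m b = k := by omega
    have a1 : X.Adj x' m := dist_eq_one_iff_adj.1 k1
    have a2 : X.Adj m z := dist_eq_one_iff_adj.1 k2
    have hxm : x ≠ m := by
      rintro rfl
      omega
    have h5 : Wd X x z = Wd X x' m := hX.sq_eq hxz a2.symm a1.symm hxx'.symm hxm hzx'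
    have e6 := hX.ne_dist m hab
    have e7 := hX.ne_dist a a2
    rw [X.dist_comm (u := a) (v := m), X.dist_comm (u := a) (v := z)] at e7
    rw [h5]
    apply ih x' m hx'a a1
    · rw [mem_Wd]
      omega
    · rw [mem_Wd]
      omega

theorem Median.compl (hX : Median X) {a b : V} (hab : X.Adj a b) (u : V) :
    u ∉ Wd X a b ↔ u ∈ Wd X b a := by
  rw [mem_Wd, mem_Wd]
  have := hX.ne_dist u hab
  omega

theorem Median.theta' (hX : Median X) {a b x z : V} (hab : X.Adj a b) (hxz : X.Adj x z)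
    (hx : x ∈ Wd X a b) (hz : z ∉ Wd X a b) : Wd X a b = Wd X x z :=
  hX.theta hab _ x z rfl hxz hx ((hX.compl hab z).1 hz)

/-- halfspaces are convex -/
theorem Median.convex (hX : Median X) {a b : V} (hab : X.Adj a b) : ∀ (k : ℕ) (x y z : V),
    X.dist x z = k → x ∈ Wd X a b → y ∈ Wd X a b → X.dist x z + X.dist z y = X.dist x y →
    z ∈ Wd X a b := by
  intro k
  induction k with
  | zero =>
    intro x y z hk hx _ _
    obtain rfl : x = z := hX.1.dist_eq_zero_iff.1 hk
    exact hx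
  | succ k ih =>
    intro x y z hk hx hy h
    obtain ⟨x₁, hxx₁, h1⟩ := exists_step hX.1 hk
    have o1 : X.dist x x₁ = 1 := dist_eq_one_iff_adj.2 hxx₁
    have h2 : X.dist x₁ y ≤ X.dist x₁ z + X.dist z y := hX.1.dist_triangle
    have h3 : X.dist x y ≤ X.dist x x₁ + X.dist x₁ y := hX.1.dist_triangle
    apply ih x₁ y z h1 _ hy (by omega)
    by_contra h4
    have h5 := hX.theta' hab hxx₁ hx h4
    rw [h5, mem_Wd, X.dist_comm (u := y) (v := x), X.dist_comm (u := y) (v := x₁)] at hy
    omega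

/-- the median is on the side of the majority -/
theorem Median.maj (hX : Median X) {a b : V} (hab : X.Adj a b) {x y z m : V}
    (hm : IsMed X x y z m) : m ∈ Wd X a b ↔ (x ∈ Wd X a b ∧ y ∈ Wd X a b) ∨
      (y ∈ Wd X a b ∧ z ∈ Wd X a b) ∨ (x ∈ Wd X a b ∧ z ∈ Wd X a b) := by
  have key : ∀ {a b : V}, X.Adj a b → (x ∈ Wd X a b ∧ y ∈ Wd X a b) ∨
      (y ∈ Wd X a b ∧ z ∈ Wd X a b) ∨ (x ∈ Wd X a b ∧ z ∈ Wd X a b) → m ∈ Wd X a b := by
    intro a b hab h
    rcases h with ⟨h1, h2⟩ | ⟨h1, h2⟩ | ⟨h1, h2⟩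
    · exact hX.convex hab _ x y m rfl h1 h2 hm.1
    · exact hX.convex hab _ y z m rfl h1 h2 hm.2.1
    · exact hX.convex hab _ x z m rfl h1 h2 hm.2.2
  constructor
  · intro h
    by_contra hcon
    have h1 := key hab.symm (by
      rw [← hX.compl hab, ← hX.compl hab, ← hX.compl hab]
      tauto)
    rw [← hX.compl hab] at h1
    exact h1 h
  · exact key hab

/-- the set of the halfspaces which contain a vertex -/
def HS (X : SimpleGraph V) (u : V) : Set (Set V) :=
  {H | u ∈ H ∧ ∃ a b, X.Adj a b ∧ H = Wd X a b}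

theorem Median.HS_adj (hX : Median X) {u v : V} (h : X.Adj u v) :
    {H | ¬ (H ∈ HS X u ↔ H ∈ HS X v)} ⊆ {Wd X u v, Wd X v u} := by
  rintro H hH
  by_cases h1 : H ∈ HS X u
  · have h2 : H ∉ HS X v := fun h2 => hH ⟨fun _ => h2, fun _ => h1⟩
    obtain ⟨hu, a, b, hab, rfl⟩ := h1
    left
    apply hX.theta' hab h hu
    intro h3
    exact h2 ⟨h3, a, b, hab, rfl⟩
  · have h2 : H ∈ HS X v := by
      by_contra h2
      exact hH ⟨fun h3 => absurd h3 h1, fun h3 => absurd h3 h2⟩
    obtain ⟨hv, a, b, hab, rfl⟩ := h2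
    right
    apply hX.theta' hab h.symm hv
    intro h3
    exact h1 ⟨h3, a, b, hab, rfl⟩

theorem Median.HS_fin (hX : Median X) (u v : V) : {H | ¬ (H ∈ HS X u ↔ H ∈ HS X v)}.Finite := by
  obtain ⟨p⟩ := hX.1.preconnected u v
  induction p with
  | nil =>
    refine Set.finite_empty.subset fun H hH => ?_
    exact absurd Iff.rfl hH
  | @cons a b c hab _ ih =>
    refine (((Set.toFinite {Wd X a b, Wd X b a}).subset (hX.HS_adj hab)).union ih).subset ?_
    intro H hH
    by_contra h
    rw [Set.mem_union, not_or] at h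
    obtain ⟨h1, h2⟩ := h
    apply hH
    have h1' : (H ∈ HS X a ↔ H ∈ HS X b) := not_not.1 h1
    have h2' : (H ∈ HS X b ↔ H ∈ HS X c) := not_not.1 h2
    exact h1'.trans h2'

theorem Median.HS_inj (hX : Median X) : Function.Injective (HS X) := by
  intro u v h
  by_contra hne
  have h1 : X.dist u v ≠ 0 := fun h0 => hne (hX.1.dist_eq_zero_iff.1 h0)
  obtain ⟨k, hk⟩ := Nat.exists_eq_succ_of_ne_zero h1
  obtain ⟨z, huz, hz⟩ := exists_step hX.1 hk
  have h2 : Wd X u z ∈ HS X u := by
    refine ⟨?_, u, z, huz, rfl⟩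
    rw [mem_Wd, dist_self, dist_eq_one_iff_adj.2 huz]
    exact one_pos
  rw [h] at h2
  have h3 := h2.1
  rw [mem_Wd, X.dist_comm (u := v) (v := u), X.dist_comm (u := v) (v := z)] at h3
  omega

theorem Median.HS_maj (hX : Median X) (x y z : V) : ∃ m, ∀ H, H ∈ HS X m ↔
    (H ∈ HS X x ∧ H ∈ HS X y) ∨ (H ∈ HS X y ∧ H ∈ HS X z) ∨ (H ∈ HS X x ∧ H ∈ HS X z) := by
  obtain ⟨m, hm, _⟩ := hX.2 x y z
  refine ⟨m, fun H => ?_⟩
  by_cases hH : ∃ a b, X.Adj a b ∧ H = Wd X a b
  · obtain ⟨a, b, hab, rfl⟩ := hH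
    have h1 : ∀ u, Wd X a b ∈ HS X u ↔ u ∈ Wd X a b := fun u =>
      ⟨fun h => h.1, fun h => ⟨h, a, b, hab, rfl⟩⟩
    rw [h1, h1, h1, h1]
    exact hX.maj hab hm
  · have h1 : ∀ u, H ∉ HS X u := fun u h => hH h.2
    constructor
    · exact fun h => absurd h (h1 m)
    · rintro (h | h | h)
      · exact absurd h.1 (h1 x)
      · exact absurd h.1 (h1 y)
      · exact absurd h.1 (h1 x)

end Q182.Cc
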