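import Pool.Agent.Q182.Cc.Comm
import Pool.Agent.Q182.Cc.Med

/-!
# Elements with fixed vertices, for systems of sets closed under the majority
-/

set_option autoImplicit false

namespace Q182.Cc

open scoped Pointwise

/-- `G` acts on `V` and `Y`, and `A v ⊆ Y` are different sets, pairwise with finite difference, closed
under the majority -/
structure Sys (G : Type) [Group G] {V Y : Type} [MulAction G V] [MulAction G Y]
    (A : V → Set Y) : Prop where
  eqv : ∀ (g : G) (v : V) (y : Y), y ∈ A v ↔ g • y ∈ A (g • v)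
  inj : Function.Injective A
  fin : ∀ u v : V, (DF (A u) (A v)).Finite
  maj : ∀ u v w : V, ∃ m : V, ∀ y : Y, y ∈ A m ↔
    (y ∈ A u ∧ y ∈ A v) ∨ (y ∈ A v ∧ y ∈ A w) ∨ (y ∈ A u ∧ y ∈ A w)

variable {G : Type} [Group G] {V Y : Type} [MulAction G V] [MulAction G Y] {A : V → Set Y}

/-- the number of the walls between `v` and `g v` -/
noncomputable def dsp (A : V → Set Y) (g : G) (v : V) : ℕ := (DF (A v) (A (g • v))).ncard

/-- a set commensurate to the `A v` and invariant under `g` gives a vertex fixed by a power -/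
theorem Sys.power_of_inv (hA : Sys G A) {g : G} {v : V} {A' : Set Y}
    (hinv : ∀ y, y ∈ A' ↔ g • y ∈ A') (hfin : (DF (A v) A').Finite) :
    ∃ (u : V) (n : ℕ), 0 < n ∧ g ^ n • u = u := by
  classical
  have hfin' : ∀ u, (DF (A u) A').Finite := fun u =>
    ((hA.fin u v).union hfin).subset (DF_tri _ _ _)
  -- minimizers
  have hex : ∃ n, ∃ u : V, (DF (A u) A').ncard = n := ⟨_, v, rfl⟩
  obtain ⟨u₀, hu₀⟩ := Nat.find_spec hex
  have hmin : ∀ u, (DF (A u₀) A').ncard ≤ (DF (A u) A').ncard := by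
    intro u
    rw [hu₀]
    exact Nat.find_min' hex ⟨u, rfl⟩
  set S : Set V := {u | (DF (A u) A').ncard = (DF (A u₀) A').ncard} with hS
  -- the set of minimizers is invariant
  have hgS : ∀ u ∈ S, g • u ∈ S := by
    intro u hu
    rw [hS, Set.mem_ofPred_eq] at hu ⊢
    rw [← hu]
    have h1 : DF (A (g • u)) A' = (fun y => g • y) '' (DF (A u) A') := by
      ext y
      constructor
      · intro hy
        refine ⟨g⁻¹ • y, ?_, smul_inv_smul g y⟩
        rw [mem_DF, hA.eqv g, hinv (g⁻¹ • y), smul_inv_smul]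
        exact hy
      · rintro ⟨z, hz, rfl⟩
        rw [mem_DF] at hz ⊢
        change ¬ (g • z ∈ A (g • u) ↔ g • z ∈ A')
        rwa [← hA.eqv, ← hinv]
    rw [h1]
    exact Set.ncard_image_of_injective _ (MulAction.injective g)
  -- it is finite
  have hSfin : S.Finite := by
    set F : Set Y := DF (A u₀) A' with hF
    have hFf : F.Finite := hfin' u₀
    refine Set.Finite.of_finite_image (f := fun u => A u ∩ F)
      (hFf.powerset.subset (by
        rintro _ ⟨u, _, rfl⟩
        exact Set.inter_subset_right)) ?_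
    intro u hu w hw huw
    have huw' : ∀ y ∈ F, (y ∈ A u ↔ y ∈ A w) := by
      intro y hy
      have h1 : y ∈ A u ∩ F ↔ y ∈ A w ∩ F := by
        have h2 : A u ∩ F = A w ∩ F := huw
        rw [h2]
      constructor
      · intro h
        exact (h1.1 ⟨h, hy⟩).1
      · intro h
        exact (h1.2 ⟨h, hy⟩).1
    have key : ∀ u w : V, u ∈ S → (∀ y ∈ F, (y ∈ A u ↔ y ∈ A w)) → ∀ m : V,
        (∀ y : Y, y ∈ A m ↔ (y ∈ A u ∧ y ∈ A w) ∨ (y ∈ A w ∧ y ∈ A u₀) ∨ (y ∈ A u ∧ y ∈ A u₀)) →
        m = u := by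
      intro u w hu h m hm
      have h1 : DF (A m) A' ⊆ DF (A u) A' := by
        intro y hy
        rw [mem_DF] at hy ⊢
        rw [hm] at hy
        by_cases hyF : y ∈ F
        · have h2 := h y hyF
          tauto
        · have h2 : y ∈ A u₀ ↔ y ∈ A' := not_not.1 hyF
          tauto
      have h2 : DF (A m) A' = DF (A u) A' := by
        apply Set.eq_of_subset_of_ncard_le h1 _ (hfin' u)
        have h3 : (DF (A u) A').ncard = (DF (A u₀) A').ncard := hu
        rw [h3]
        exact hmin m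
      apply hA.inj
      ext y
      have h3 : y ∈ DF (A m) A' ↔ y ∈ DF (A u) A' := by rw [h2]
      rw [mem_DF, mem_DF] at h3
      tauto
    obtain ⟨m, hm⟩ := hA.maj u w u₀
    have e1 := key u w hu huw' m hm
    have e2 := key w u hw (fun y hy => (huw' y hy).symm) m (by
      intro y
      rw [hm]
      tauto)
    rw [← e1, e2]
  -- pigeonhole
  have hu₀S : u₀ ∈ S := rfl
  have hpow : ∀ n : ℕ, g ^ n • u₀ ∈ S := by
    intro n
    induction n with
    | zero => rwa [pow_zero, one_smul]
    | succ n ih =>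
      rw [pow_succ', mul_smul]
      exact hgS _ ih
  obtain ⟨a, _, b, _, hab, heq⟩ := Set.infinite_univ.exists_ne_map_eq_of_mapsTo
    (f := fun n : ℕ => g ^ n • u₀) (fun n _ => hpow n) hSfin
  have hkey : ∀ a b : ℕ, a < b → g ^ a • u₀ = g ^ b • u₀ → ∃ (u : V) (n : ℕ), 0 < n ∧ g ^ n • u = u := by
    intro a b hlt h
    refine ⟨u₀, b - a, by omega, ?_⟩
    have h1 : g ^ b = g ^ a * g ^ (b - a) := by
      rw [← pow_add]
      congr 1
      omega
    rw [h1, mul_smul] at h
    exact ((MulAction.injective (g ^ a)) h).symm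
  rcases lt_or_gt_of_ne hab with h | h
  · exact hkey a b h heq
  · exact hkey b a h heq.symm

/-- **high powers have powers with fixed vertices** -/
theorem Sys.power_fix (hA : Sys G A) {g h : G} {M : ℕ} (hM : h ^ M = g) {v : V}
    (hd : dsp A g v < M) : ∃ (u : V) (n : ℕ), 0 < n ∧ g ^ n • u = u := by
  have hpre : ∀ k : G, {y : Y | ¬ (y ∈ A v ↔ k • y ∈ A v)} = DF (A v) (A (k⁻¹ • v)) := by
    intro k
    ext y
    have h1 := hA.eqv k⁻¹ v (k • y)
    rw [inv_smul_smul] at h1
    rw [Set.mem_ofPred_eq, mem_DF, h1]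
  have hperm : ∀ (n : ℕ) (y : Y), ((MulAction.toPermHom G Y h) ^ n) y = h ^ n • y := by
    intro n y
    rw [← map_pow]
    rfl
  have hcard : (DF (A v) (A (g⁻¹ • v))).ncard < M := by
    have h1 : DF (A v) (A (g • v)) = (fun y => g • y) '' DF (A v) (A (g⁻¹ • v)) := by
      ext y
      constructor
      · intro hy
        refine ⟨g⁻¹ • y, ?_, smul_inv_smul g y⟩
        rw [mem_DF] at hy ⊢
        rw [hA.eqv g v (g⁻¹ • y), smul_inv_smul, ← hA.eqv g⁻¹ v y]
        tauto
      · rintro ⟨z, hz, rfl⟩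
        rw [mem_DF] at hz ⊢
        change ¬ (g • z ∈ A v ↔ g • z ∈ A (g • v))
        rw [hA.eqv g⁻¹ v (g • z), inv_smul_smul, ← hA.eqv g v z]
        tauto
    unfold dsp at hd
    rw [h1, Set.ncard_image_of_injective _ (MulAction.injective g)] at hd
    exact hd
  obtain ⟨A', h1, h2⟩ := exists_inv (MulAction.toPermHom G Y h) (A v) (by
      have h3 := hpre h
      have h4 : {y : Y | ¬ (y ∈ A v ↔ (MulAction.toPermHom G Y h) y ∈ A v)} =
          {y : Y | ¬ (y ∈ A v ↔ h • y ∈ A v)} := rfl
      rw [h4, h3]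
      exact hA.fin _ _) M (by
      simp only [hperm, hM]
      rw [hpre]
      exact hcard) (by
      simp only [hperm, hM]
      rw [hpre]
      exact hA.fin _ _)
  have h3 : ∀ (n : ℕ) (y : Y), y ∈ A' ↔ h ^ n • y ∈ A' := by
    intro n
    induction n with
    | zero => intro y; rw [pow_zero, one_smul]
    | succ n ih =>
      intro y
      rw [pow_succ', mul_smul, ih y]
      exact h1 _
  refine hA.power_of_inv (A' := A') (v := v) ?_ h2
  intro y
  rw [← hM]
  exact h3 M y

/-! ### fixed vertices of elements with an orbit of odd size -/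

theorem maj12 {p q r s : Prop} (h1 : p ↔ s) (h2 : q ↔ s) :
    ((p ∧ q) ∨ (q ∧ r) ∨ (p ∧ r)) ↔ s := by
  rw [h1, h2]
  tauto

theorem maj23 {p q r s : Prop} (h1 : q ↔ s) (h2 : r ↔ s) :
    ((p ∧ q) ∨ (q ∧ r) ∨ (p ∧ r)) ↔ s := by
  rw [h1, h2]
  tauto

theorem maj13 {p q r s : Prop} (h1 : p ↔ s) (h2 : r ↔ s) :
    ((p ∧ q) ∨ (q ∧ r) ∨ (p ∧ r)) ↔ s := by
  rw [h1, h2]
  tauto

/-- finitely many conditions which can be satisfied pairwise can be satisfied simultaneously -/
theorem Sys.helly [Nonempty V] (hA : Sys G A) {A' : Set Y}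
    (hpair : ∀ y z : Y, ∃ u : V, (y ∈ A u ↔ y ∈ A') ∧ (z ∈ A u ↔ z ∈ A')) :
    ∀ (k : ℕ) (F : Finset Y), F.card = k → ∃ u : V, ∀ y ∈ F, (y ∈ A u ↔ y ∈ A') := by
  classical
  intro k
  induction k using Nat.strong_induction_on with
  | _ k ih =>
    intro F hF
    rcases Nat.lt_or_ge 2 F.card with h2 | h2
    · obtain ⟨a, b, c, ha, hb, hc, hab, hac, hbc⟩ := Finset.two_lt_card_iff.1 h2
      obtain ⟨u, hu⟩ := ih (F.erase a).card (by
        rw [Finset.card_erase_of_mem ha]; omega) (F.erase a) rfl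
      obtain ⟨w, hw⟩ := ih (F.erase b).card (by
        rw [Finset.card_erase_of_mem hb]; omega) (F.erase b) rfl
      obtain ⟨x, hx⟩ := ih (F.erase c).card (by
        rw [Finset.card_erase_of_mem hc]; omega) (F.erase c) rfl
      obtain ⟨m, hm⟩ := hA.maj u w x
      refine ⟨m, fun y hy => ?_⟩
      have e1 : y ≠ a → (y ∈ A u ↔ y ∈ A') := fun h => hu y (Finset.mem_erase.2 ⟨h, hy⟩)
      have e2 : y ≠ b → (y ∈ A w ↔ y ∈ A') := fun h => hw y (Finset.mem_erase.2 ⟨h, hy⟩)
      have e3 : y ≠ c → (y ∈ A x ↔ y ∈ A') := fun h => hx y (Finset.mem_erase.2 ⟨h, hy⟩)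
      have e4 : y = a → y ≠ b := fun h => by rw [h]; exact hab
      have e5 : y = a → y ≠ c := fun h => by rw [h]; exact hac
      have e6 : y = b → y ≠ c := fun h => by rw [h]; exact hbc
      rw [hm]
      by_cases h1 : y = a
      · exact maj23 (e2 (e4 h1)) (e3 (e5 h1))
      · by_cases h3 : y = b
        · exact maj13 (e1 h1) (e3 (e6 h3))
        · exact maj12 (e1 h1) (e2 h3)
    · rcases Nat.lt_or_ge 1 F.card with h1 | h1
      · have h3 : F.card = 2 := by omega
        obtain ⟨a, b, hab, rfl⟩ := Finset.card_eq_two.1 h3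
        obtain ⟨u, h4, h5⟩ := hpair a b
        refine ⟨u, fun y hy => ?_⟩
        rw [Finset.mem_insert, Finset.mem_singleton] at hy
        rcases hy with rfl | rfl
        · exact h4
        · exact h5
      · rcases Nat.eq_zero_or_pos F.card with h0 | h0
        · rw [Finset.card_eq_zero] at h0
          subst h0
          exact ⟨Classical.arbitrary V, fun y hy => absurd hy (Finset.notMem_empty y)⟩
        · have h3 : F.card = 1 := by omega
          obtain ⟨a, rfl⟩ := Finset.card_eq_one.1 h3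
          obtain ⟨u, h4, _⟩ := hpair a a
          refine ⟨u, fun y hy => ?_⟩
          rw [Finset.mem_singleton] at hy
          subst hy
          exact h4

/-- a set which is consistent and commensurate to the `A v` is one of them -/
theorem Sys.exists_eq [Nonempty V] (hA : Sys G A) {A' : Set Y}
    (hpair : ∀ y z : Y, ∃ u : V, (y ∈ A u ↔ y ∈ A') ∧ (z ∈ A u ↔ z ∈ A')) {v : V}
    (hfin : (DF (A v) A').Finite) : ∃ u : V, A u = A' := by
  classical
  obtain ⟨u, hu⟩ := hA.helly hpair _ hfin.toFinset rfl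
  obtain ⟨w, hw⟩ := hA.helly hpair _ ((hfin.union (hA.fin u v)).toFinset) rfl
  obtain ⟨m, hm⟩ := hA.maj u v w
  refine ⟨m, ?_⟩
  ext y
  rw [hm]
  by_cases h1 : y ∈ DF (A v) A'
  · exact maj13 (hu y (by simpa using h1)) (hw y (by simpa using Or.inl h1))
  · have h1' : y ∈ A v ↔ y ∈ A' := not_not.1 h1
    by_cases h2 : y ∈ DF (A u) (A v)
    · exact maj23 h1' (hw y (by simpa using Or.inr h2))
    · have h2' : y ∈ A u ↔ y ∈ A v := not_not.1 h2
      exact maj12 (h2'.trans h1') h1'

/-- an element with an orbit of odd size fixes a vertex -/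
theorem Sys.odd_fix (hA : Sys G A) {h : G} {v : V} {k : ℕ} (hk : h ^ (2 * k + 1) • v = v) :
    ∃ u : V, h • u = u := by
  classical
  have : Nonempty V := ⟨v⟩
  set p : ℕ := 2 * k + 1 with hp
  let N : Y → ℕ := fun y => ∑ i ∈ Finset.range p, if y ∈ A (h ^ i • v) then 1 else 0
  let A' : Set Y := {y | k < N y}
  have hcard : ∀ y, N y = ((Finset.range p).filter fun i => y ∈ A (h ^ i • v)).card := by
    intro y
    rw [Finset.card_filter]
  -- the set of the places which agree with the majority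
  have hag : ∀ y : Y, k < ((Finset.range p).filter fun i => (y ∈ A (h ^ i • v) ↔ y ∈ A')).card := by
    intro y
    by_cases hy : y ∈ A'
    · have h1 : ((Finset.range p).filter fun i => (y ∈ A (h ^ i • v) ↔ y ∈ A')) =
          (Finset.range p).filter fun i => y ∈ A (h ^ i • v) := by
        apply Finset.filter_congr
        intro i _
        exact ⟨fun h2 => h2.2 hy, fun h2 => ⟨fun _ => hy, fun _ => h2⟩⟩
      rw [h1, ← hcard]
      exact hy
    · have h1 : ((Finset.range p).filter fun i => (y ∈ A (h ^ i • v) ↔ y ∈ A')) =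
          (Finset.range p).filter fun i => ¬ y ∈ A (h ^ i • v) := by
        apply Finset.filter_congr
        intro i _
        exact ⟨fun h2 h3 => hy (h2.1 h3), fun h2 => ⟨fun h3 => absurd h3 h2, fun h3 => absurd h3 hy⟩⟩
      have h2 := Finset.card_filter_add_card_filter_not (s := Finset.range p)
        (fun i => y ∈ A (h ^ i • v))
      rw [Finset.card_range, ← hcard] at h2
      have h3 : ¬ k < N y := hy
      rw [h1]
      omega
  have hpair : ∀ y z : Y, ∃ u : V, (y ∈ A u ↔ y ∈ A') ∧ (z ∈ A u ↔ z ∈ A') := by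
    intro y z
    by_contra hcon
    push Not at hcon
    have h1 : Disjoint ((Finset.range p).filter fun i => (y ∈ A (h ^ i • v) ↔ y ∈ A'))
        ((Finset.range p).filter fun i => (z ∈ A (h ^ i • v) ↔ z ∈ A')) := by
      rw [Finset.disjoint_left]
      intro i hi hi'
      have h2 := (Finset.mem_filter.1 hi).2
      have h3 := (Finset.mem_filter.1 hi').2
      have h4 := hcon (h ^ i • v) h2
      tauto
    have h2 := Finset.card_union_of_disjoint h1
    have h3 : (((Finset.range p).filter fun i => (y ∈ A (h ^ i • v) ↔ y ∈ A')) ∪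
        ((Finset.range p).filter fun i => (z ∈ A (h ^ i • v) ↔ z ∈ A'))).card ≤ p := by
      refine (Finset.card_le_card (t := Finset.range p) ?_).trans (Finset.card_range p).le
      exact Finset.union_subset (Finset.filter_subset _ _) (Finset.filter_subset _ _)
    have h4 := hag y
    have h5 := hag z
    omega
  have hfin : (DF (A v) A').Finite := by
    have h1 : DF (A v) A' ⊆ ⋃ i ∈ Finset.range p, DF (A v) (A (h ^ i • v)) := by
      intro y hy
      by_contra hcon
      simp only [Set.mem_iUnion, not_exists] at hcon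
      have h2 : ∀ i ∈ Finset.range p, (y ∈ A v ↔ y ∈ A (h ^ i • v)) := fun i hi =>
        not_not.1 (hcon i hi)
      apply hy
      obtain ⟨i, hi⟩ := Finset.card_pos.1 (lt_of_le_of_lt (Nat.zero_le _) (hag y))
      obtain ⟨h3, h4⟩ := Finset.mem_filter.1 hi
      exact (h2 i h3).trans h4
    exact ((Finset.range p).finite_toSet.biUnion fun i _ => hA.fin _ _).subset h1
  obtain ⟨u, hu⟩ := hA.exists_eq hpair hfin
  refine ⟨u, hA.inj ?_⟩
  -- invariance
  have hshift : ∀ y, N (h • y) = N y := by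
    intro y
    have h1 : ∀ i : ℕ, (h • y ∈ A (h ^ (i + 1) • v) ↔ y ∈ A (h ^ i • v)) := by
      intro i
      rw [hA.eqv h (h ^ i • v) y, pow_succ', mul_smul]
    have e1 : N (h • y) = ∑ i ∈ Finset.range (2 * k + 1), if h • y ∈ A (h ^ i • v) then 1 else 0 := rfl
    have e2 : N y = ∑ i ∈ Finset.range (2 * k + 1), if y ∈ A (h ^ i • v) then 1 else 0 := rfl
    have e3 : (h • y ∈ A (h ^ 0 • v)) ↔ (y ∈ A (h ^ (2 * k) • v)) := by
      rw [← h1, pow_zero, one_smul, hk]
    rw [e1, e2, Finset.sum_range_succ', Finset.sum_range_succ]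
    simp only [h1, e3]
  ext y
  rw [hu]
  have h2 : y ∈ A (h • u) ↔ h⁻¹ • y ∈ A u := by
    rw [hA.eqv h u (h⁻¹ • y), smul_inv_smul]
  rw [h2, hu]
  have h3 := hshift (h⁻¹ • y)
  rw [smul_inv_smul] at h3
  change k < N (h⁻¹ • y) ↔ k < N y
  rw [h3]

/-- median graphs give systems -/
theorem Median.sys {X : SimpleGraph V} (hX : Median X)
    (hact : ∀ (g : G) (v w : V), X.Adj v w → X.Adj (g • v) (g • w)) : Sys G (HS X) where
  eqv := by
    have hdist : ∀ (g : G) (v w : V), X.dist (g • v) (g • w) = X.dist v w := by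
      have hle : ∀ (g : G) (v w : V), X.dist (g • v) (g • w) ≤ X.dist v w := by
        intro g v w
        obtain ⟨p, hp⟩ := hX.1.exists_walk_length_eq_dist v w
        let f : X →g X := ⟨fun v => g • v, fun h => hact g _ _ h⟩
        have h1 := SimpleGraph.dist_le (p.map f)
        rw [SimpleGraph.Walk.length_map, hp] at h1
        exact h1
      intro g v w
      apply le_antisymm (hle g v w)
      have h1 := hle g⁻¹ (g • v) (g • w)
      rwa [inv_smul_smul, inv_smul_smul] at h1
    have himg : ∀ (g : G) (a b : V), g • Wd X a b = Wd X (g • a) (g • b) := by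
      intro g a b
      ext u
      rw [Set.mem_smul_set_iff_inv_smul_mem, mem_Wd, mem_Wd]
      have e1 := hdist g (g⁻¹ • u) a
      have e2 := hdist g (g⁻¹ • u) b
      rw [smul_inv_smul] at e1 e2
      rw [e1, e2]
    have key : ∀ (g : G) (v : V) (H : Set V), H ∈ HS X v → g • H ∈ HS X (g • v) := by
      rintro g v H ⟨h1, a, b, hab, rfl⟩
      refine ⟨Set.smul_mem_smul_set h1, g • a, g • b, hact g a b hab, himg g a b⟩
    intro g v H
    refine ⟨key g v H, fun h => ?_⟩
    have h1 := key g⁻¹ _ _ h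
    rwa [inv_smul_smul, inv_smul_smul] at h1
  inj := hX.HS_inj
  fin := hX.HS_fin
  maj := hX.HS_maj

end Q182.Cc
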